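import Mathlib
import Pool.Agent.H16.LA.S8.W222.UABC.Ideals

/-!
# Counting ideals, uniformly in all number fields, with explicit dependence on the degree
-/

set_option autoImplicit false

namespace Pool.Agent.Y733.UD

open NumberField IsDedekindDomain Finset Pool.Agent.H691R3 Pool.Agent.W223.AK Pool.Agent.W52.AK
open Pool.Agent.W222.UABC (pv pv_prime pv_le fibre_card)

theorem primes_sum (x : ℝ) (hx : 1 < x) : ∃ F : ℝ, 0 ≤ F ∧
    ∀ (K : Type) [Field K] [NumberField K], ∀ s : Finset (Pr K),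
      ∑ v ∈ s, (nm v : ℝ) ^ (-x) ≤ Module.finrank ℚ K * F := by
  classical
  have hsum : Summable (fun m : ℕ => (m : ℝ) ^ (-x)) := Real.summable_nat_rpow.2 (by linarith)
  refine ⟨∑' m : ℕ, (m : ℝ) ^ (-x), tsum_nonneg fun m => by positivity, ?_⟩
  intro K _ _ s
  set n := Module.finrank ℚ K with hn
  have h1 : ∑ v ∈ s, (nm v : ℝ) ^ (-x) ≤ ∑ v ∈ s, (pv v : ℝ) ^ (-x) := by
    refine Finset.sum_le_sum fun v _ => ?_
    have h2 : (0 : ℝ) < pv v := by exact_mod_cast (pv_prime v).pos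
    have h3 : (pv v : ℝ) ≤ nm v := by exact_mod_cast pv_le v
    exact Real.rpow_le_rpow_of_nonpos h2 h3 (by linarith)
  refine h1.trans ?_
  rw [Finset.sum_comp (fun m : ℕ => (m : ℝ) ^ (-x)) pv]
  have h2 : ∑ b ∈ s.image pv, (s.filter fun v => pv v = b).card • (b : ℝ) ^ (-x) ≤
      ∑ b ∈ s.image pv, (n : ℝ) * (b : ℝ) ^ (-x) := by
    refine Finset.sum_le_sum fun b _ => ?_
    rw [nsmul_eq_mul]
    refine mul_le_mul_of_nonneg_right ?_ (by positivity)
    have := fibre_card b (s.filter fun v => pv v = b) (fun v hv => (Finset.mem_filter.1 hv).2)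
    exact_mod_cast this
  refine h2.trans ?_
  rw [← Finset.mul_sum]
  exact mul_le_mul_of_nonneg_left (hsum.sum_le_tsum _ fun m _ => by positivity)
    (Nat.cast_nonneg _)

theorem fw_sum {η : ℝ} (hη : 0 < η) : ∃ F0 : ℝ, 0 ≤ F0 ∧
    ∀ (K : Type) [Field K] [NumberField K],
      ∀ s : Finset (Pr K × ℕ), ∑ u ∈ s, fw η u ≤ Module.finrank ℚ K * F0 := by
  classical
  obtain ⟨F, hF0, hF⟩ := primes_sum (1 + η / 2) (by linarith)
  set ρ : ℝ := Real.exp (-(η / 2 * Real.log 2)) with hρ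
  have hlog : 0 < Real.log 2 := Real.log_pos (by norm_num)
  have hρ0 : 0 ≤ ρ := (Real.exp_pos _).le
  have hρ1 : ρ < 1 := by
    rw [hρ, Real.exp_lt_one_iff]
    have := mul_pos (half_pos hη) hlog
    linarith
  have hgeo := summable_geometric_of_lt_one hρ0 hρ1
  refine ⟨F * ∑' m : ℕ, ρ ^ m, mul_nonneg hF0 (tsum_nonneg fun m => pow_nonneg hρ0 m),
    fun K _ _ s => ?_⟩
  have h0 : ∀ u : Pr K × ℕ, fw η u ≤ (nm u.1 : ℝ) ^ (-(1 + η / 2)) * ρ ^ u.2 := by
    intro u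
    unfold fw
    split_ifs with hu
    · positivity
    · rw [Nv_rpow, hρ, ← Real.exp_nat_mul, ← Real.exp_add]
      apply Real.exp_le_exp.2
      have h1 : Real.log 2 ≤ Real.log (Nv u.1) := log_two_le_log_Nv u.1
      have h2 : (1 : ℝ) ≤ u.2 := by
        exact_mod_cast Nat.one_le_iff_ne_zero.2 hu
      have h3 : 0 < Real.log (Nv u.1) := log_Nv_pos u.1
      have h4 : η / 2 * (u.2 * Real.log 2) ≤ η / 2 * (u.2 * Real.log (Nv u.1)) := by gcongr
      have h5 : η / 2 * (1 * Real.log (Nv u.1)) ≤ η / 2 * (u.2 * Real.log (Nv u.1)) := by gcongr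
      nlinarith
  calc ∑ u ∈ s, fw η u
      ≤ ∑ u ∈ s, (nm u.1 : ℝ) ^ (-(1 + η / 2)) * ρ ^ u.2 := Finset.sum_le_sum fun u _ => h0 u
    _ ≤ ∑ u ∈ s.image Prod.fst ×ˢ s.image Prod.snd, (nm u.1 : ℝ) ^ (-(1 + η / 2)) * ρ ^ u.2 := by
        refine Finset.sum_le_sum_of_subset_of_nonneg ?_ (fun u _ _ => by positivity)
        intro u hu
        exact Finset.mem_product.2 ⟨Finset.mem_image_of_mem _ hu, Finset.mem_image_of_mem _ hu⟩
    _ = (∑ v ∈ s.image Prod.fst, (nm v : ℝ) ^ (-(1 + η / 2))) * ∑ m ∈ s.image Prod.snd, ρ ^ m := by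
        rw [Finset.sum_product, Finset.sum_mul_sum]
    _ ≤ (Module.finrank ℚ K * F) * ∑' m : ℕ, ρ ^ m := by
        refine mul_le_mul (hF K _) (hgeo.sum_le_tsum _ fun m _ => pow_nonneg hρ0 m)
          (Finset.sum_nonneg fun m _ => pow_nonneg hρ0 m) (mul_nonneg (Nat.cast_nonneg _) hF0)
    _ = _ := by ring

/-- the sum of the ideal weights -/
theorem weight_sum {ε : ℝ} (hε : 0 < ε) : ∃ F0 : ℝ, 0 ≤ F0 ∧
    ∀ (K : Type) [Field K] [NumberField K], ∀ E : Finset (Idl K),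
      ∑ a ∈ E, Real.exp (-(rl a) - ε * len a) ≤ Real.exp (Module.finrank ℚ K * F0) := by
  obtain ⟨F0, hF00, hF0⟩ := fw_sum hε
  refine ⟨F0, hF00, fun K _ _ E => ?_⟩
  have h1 := rankin (fw ε) (fw_nonneg ε) _ (hF0 K) E
  refine le_trans (le_of_eq ?_) h1
  exact Finset.sum_congr rfl fun a _ => (fw_prod ε a).symm

/-- ideals of bounded size -/
theorem ideals_card {ε : ℝ} (hε : 0 < ε) : ∃ F : ℝ, 0 ≤ F ∧
    ∀ (K : Type) [Field K] [NumberField K], ∀ (X : ℝ) (Q : Finset (Idl K)),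
      (∀ t ∈ Q, len t ≤ X) →
      (Q.card : ℝ) ≤ Real.exp (Module.finrank ℚ K * F + (1 + ε) * X) := by
  obtain ⟨F0, hF00, hF0⟩ := weight_sum hε
  refine ⟨F0, hF00, fun K _ _ X Q hQ => ?_⟩
  have h1 : (Q.card : ℝ) ≤ ∑ t ∈ Q, Real.exp ((1 + ε) * X) * Real.exp (-(rl t) - ε * len t) := by
    have h3 : (Q.card : ℝ) = ∑ t ∈ Q, (1 : ℝ) := by simp
    rw [h3]
    refine Finset.sum_le_sum fun t ht => ?_
    rw [← Real.exp_add]
    apply Real.one_le_exp
    have h4 := hQ t ht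
    have h5 := rl_le_len t
    nlinarith
  refine h1.trans ?_
  rw [← Finset.mul_sum, Real.exp_add, mul_comm]
  exact mul_le_mul_of_nonneg_right (hF0 K Q) (Real.exp_pos _).le

/-- pairs of ideals with small radicals are few, uniformly in the field -/
theorem pairs_card {ε : ℝ} (hε : 0 < ε) : ∃ F : ℝ, 0 ≤ F ∧
    ∀ (K : Type) [Field K] [NumberField K],
      ∀ (X c : ℝ) (Q : Finset (Idl K × Idl K)),
        (∀ t ∈ Q, rl t.1 + rl t.2 ≤ c ∧ len t.1 ≤ X ∧ len t.2 ≤ X) →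
        (Q.card : ℝ) ≤ Real.exp (Module.finrank ℚ K * F + c + ε * X) := by
  classical
  obtain ⟨F0, hF00, hF0⟩ := weight_sum (half_pos hε)
  refine ⟨2 * F0, by positivity, ?_⟩
  intro K _ _ X c Q hQ
  set w : Idl K → ℝ := fun a => Real.exp (-(rl a) - ε / 2 * len a) with hw
  have hr : ∀ E : Finset (Idl K), ∑ a ∈ E, w a ≤ Real.exp (Module.finrank ℚ K * F0) := hF0 K
  have hw0 : ∀ a, 0 ≤ w a := fun a => (Real.exp_pos _).le
  have h1 : (Q.card : ℝ) ≤ ∑ t ∈ Q, Real.exp (c + ε * X) * (w t.1 * w t.2) := by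
    have h3 : (Q.card : ℝ) = ∑ t ∈ Q, (1 : ℝ) := by simp
    rw [h3]
    refine Finset.sum_le_sum fun t ht => ?_
    obtain ⟨h4, h5, h6⟩ := hQ t ht
    rw [hw]
    simp only
    rw [← Real.exp_add, ← Real.exp_add]
    apply Real.one_le_exp
    have h7 := mul_le_mul_of_nonneg_left h5 (half_pos hε).le
    have h8 := mul_le_mul_of_nonneg_left h6 (half_pos hε).le
    linarith
  refine h1.trans ?_
  rw [← Finset.mul_sum]
  have h2 : ∑ t ∈ Q, w t.1 * w t.2 ≤ Real.exp (Module.finrank ℚ K * F0) *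
      Real.exp (Module.finrank ℚ K * F0) := by
    calc ∑ t ∈ Q, w t.1 * w t.2
        ≤ ∑ t ∈ Q.image Prod.fst ×ˢ Q.image Prod.snd, w t.1 * w t.2 := by
          refine Finset.sum_le_sum_of_subset_of_nonneg ?_
            (fun t _ _ => mul_nonneg (hw0 _) (hw0 _))
          intro t ht
          exact Finset.mem_product.2 ⟨Finset.mem_image_of_mem _ ht, Finset.mem_image_of_mem _ ht⟩
      _ = (∑ a ∈ Q.image Prod.fst, w a) * ∑ b ∈ Q.image Prod.snd, w b := by
          rw [Finset.sum_product, Finset.sum_mul_sum]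
      _ ≤ _ :=
          mul_le_mul (hr _) (hr _) (Finset.sum_nonneg fun b _ => hw0 b) (Real.exp_pos _).le
  refine (mul_le_mul_of_nonneg_left h2 (Real.exp_pos _).le).trans (le_of_eq ?_)
  rw [← Real.exp_add, ← Real.exp_add]
  congr 1
  ring

end Pool.Agent.Y733.UD
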