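import Mathlib
import Pool.Agent.H16.LA.S8.W223.AK.Final
import Pool.Agent.H16.LA.S8.W222.UABC.PerField
import Pool.Agent.H16.LA.S8.Y733.UD.Ideals
import Pool.Agent.H16.LA.S8.Y733.UD.Units

/-!
# Points with small radical over one field, uniformly in all number fields
-/

set_option autoImplicit false

namespace Pool.Agent.Y733.UD

open NumberField IsDedekindDomain Finset Pool.Agent.H691R3 Pool.Agent.W223.AK
open Pool.Agent.W222.UABC (cS_empty quo quo_ne fv_quo)

section OneField

variable {K : Type} [Field K] [NumberField K]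

theorem log_quo_eq {x : K} (hx : Pt x) (p q : Fin 3) (w : InfinitePlace K) :
    (w.mult : ℝ) * Real.log (w (quo p q x)) = lm (Sum.inl w : Pl K) q x -
      lm (Sum.inl w : Pl K) p x := by
  have hLp := (av (Sum.inl w : Pl K)).pos (L_ne hx p)
  have hLq := (av (Sum.inl w : Pl K)).pos (L_ne hx q)
  have e0 : w (quo p q x) = av (Sum.inl w : Pl K) (L p x) / av (Sum.inl w : Pl K) (L q x) := by
    show av (Sum.inl w : Pl K) (quo p q x) = _
    unfold quo
    rw [map_div₀]
  have e1 := lm_eq hx (Sum.inl w : Pl K) p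
  have e2 := lm_eq hx (Sum.inl w : Pl K) q
  have e3 : mt (Sum.inl w : Pl K) = (w.mult : ℝ) := rfl
  rw [e0, Real.log_div hLp.ne' hLq.ne', e1, e2, ← e3]
  ring

/-- the mean of the logarithms of a quotient of forms -/
theorem sum_log_quo {x : K} (hx : Pt x) {X : ℝ} (hX : ht x ≤ X) (p q : Fin 3) :
    ∑ w : InfinitePlace K, (w.mult : ℝ) * |Real.log (w (quo p q x))| ≤
      2 * X + 4 * (Module.finrank ℚ K * Real.log 2) := by
  obtain ⟨P, hP⟩ := exists_isP ∅ hx
  have h1 : ∀ l : Fin 3, ∑ w : InfinitePlace K, lm (Sum.inl w : Pl K) l x ≤ X := by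
    intro l
    have h2 := sum_lm hx hP l
    rw [sum_Spl, Finset.sum_empty, add_zero] at h2
    have h3 := len_nonneg (P l)
    linarith
  have hmult : ∑ w : InfinitePlace K, (w.mult : ℝ) = Module.finrank ℚ K := by
    have := InfinitePlace.sum_mult_eq (K := K)
    exact_mod_cast this
  have h2 : ∀ w : InfinitePlace K, (w.mult : ℝ) * |Real.log (w (quo p q x))| ≤
      lm (Sum.inl w : Pl K) q x + lm (Sum.inl w : Pl K) p x + 2 * (w.mult * Real.log 2) := by
    intro w
    have e1 : (w.mult : ℝ) * |Real.log (w (quo p q x))| =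
        |(w.mult : ℝ) * Real.log (w (quo p q x))| := by
      rw [abs_mul, Nat.abs_cast]
    rw [e1, log_quo_eq hx]
    have b3 := lm_ge hx (Sum.inl w : Pl K) p
    have b4 := lm_ge hx (Sum.inl w : Pl K) q
    have e3 : mt (Sum.inl w : Pl K) = (w.mult : ℝ) := rfl
    rw [e3] at b3 b4
    rw [abs_le]
    constructor <;> linarith
  calc ∑ w : InfinitePlace K, (w.mult : ℝ) * |Real.log (w (quo p q x))|
      ≤ ∑ w : InfinitePlace K, (lm (Sum.inl w : Pl K) q x + lm (Sum.inl w : Pl K) p x +
          2 * (w.mult * Real.log 2)) := Finset.sum_le_sum fun w _ => h2 w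
    _ = ∑ w : InfinitePlace K, lm (Sum.inl w : Pl K) q x +
          ∑ w : InfinitePlace K, lm (Sum.inl w : Pl K) p x +
          2 * (Module.finrank ℚ K * Real.log 2) := by
        rw [Finset.sum_add_distrib, Finset.sum_add_distrib, ← Finset.mul_sum, ← Finset.sum_mul,
          hmult]
    _ ≤ _ := by
        have := h1 p
        have := h1 q
        have h5 : 0 ≤ (Module.finrank ℚ K : ℝ) * Real.log 2 := by positivity
        linarith

end OneField

/-- points of one class: determined by two ideals and a unit -/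
theorem class_card {ε : ℝ} (hε : 0 < ε) : ∃ A : ℝ, 0 ≤ A ∧
    ∀ (K : Type) [Field K] [NumberField K],
      ∀ (X c : ℝ) (F : Finset K) (P : K → Fin 3 → Idl K) (p q : Fin 3), p ≠ q →
        (∀ x ∈ F, Pt x ∧ ht x ≤ X ∧ IsP ∅ x (P x) ∧ rl (P x p) + rl (P x q) ≤ c) →
        (F.card : ℝ) ≤ Real.exp (Module.finrank ℚ K * A + c + ε * X) := by
  classical
  obtain ⟨A1, hA1, h1⟩ := pairs_card (half_pos hε)
  obtain ⟨A2, hA2, h2⟩ := units_card (ε := ε / 8) (by positivity)
  have hl2 : 0 ≤ Real.log 2 := Real.log_nonneg (by norm_num)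
  refine ⟨A1 + ε / 2 * Real.log 2 + A2 + ε * Real.log 2, by positivity, ?_⟩
  intro K _ _ X c F P p q hpq hF
  set n := Module.finrank ℚ K with hn
  set π : K → Idl K × Idl K := fun x => (P x p, P x q) with hπ
  have hQ : ((F.image π).card : ℝ) ≤ Real.exp (n * A1 + c + ε / 2 * (X + n * Real.log 2)) := by
    refine h1 K _ _ _ ?_
    intro t ht
    obtain ⟨x, hx, rfl⟩ := Finset.mem_image.1 ht
    obtain ⟨hPt, hht, hPx, hr⟩ := hF x hx
    refine ⟨hr, ?_, ?_⟩
    · have := len_le hPt hPx p
      rw [cS_empty] at this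
      exact this.trans (by linarith)
    · have := len_le hPt hPx q
      rw [cS_empty] at this
      exact this.trans (by linarith)
  have hfib : ∀ t ∈ F.image π, ((F.filter fun x => π x = t).card : ℝ) ≤
      Real.exp (n * A2 + ε / 8 * (4 * X + 8 * (n * Real.log 2))) := by
    intro t _
    set G := F.filter fun x => π x = t with hG
    rcases G.eq_empty_or_nonempty with hGe | ⟨x0, hx0⟩
    · rw [hGe, Finset.card_empty, Nat.cast_zero]
      positivity
    have hGm : ∀ x ∈ G, x ∈ F ∧ π x = t := fun x hx => Finset.mem_filter.1 hx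
    obtain ⟨hx0F, hx0t⟩ := hGm x0 hx0
    obtain ⟨hPt0, hht0, hP0, _⟩ := hF x0 hx0F
    have hq0 := quo_ne hPt0 p q
    set f : K → K := fun x => quo p q x / quo p q x0 with hf
    have hinj : Set.InjOn f (G : Set K) := by
      intro x hx y hy hxy
      obtain ⟨hxF, _⟩ := hGm x (Finset.mem_coe.1 hx)
      obtain ⟨hyF, _⟩ := hGm y (Finset.mem_coe.1 hy)
      exact L_quot_inj (hF x hxF).1 (hF y hyF).1 hpq ((div_left_inj' hq0).1 hxy)
    rw [← Finset.card_image_of_injOn hinj]
    refine h2 K _ _ ?_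
    intro y hy
    obtain ⟨x, hx, rfl⟩ := Finset.mem_image.1 hy
    obtain ⟨hxF, hxt⟩ := hGm x hx
    obtain ⟨hPt, hht, hPx, _⟩ := hF x hxF
    refine ⟨div_ne_zero (quo_ne hPt p q) hq0, ?_, ?_⟩
    · intro v
      rw [hf]
      simp only
      rw [map_div₀, fv_quo hPx, fv_quo hP0]
      have e1 : P x p = P x0 p := congrArg Prod.fst (hxt.trans hx0t.symm)
      have e2 : P x q = P x0 q := congrArg Prod.snd (hxt.trans hx0t.symm)
      rw [e1, e2]
      have hN : (0 : ℝ) < Nv v := Nv_pos v
      exact div_self (div_ne_zero (zpow_ne_zero _ hN.ne') (zpow_ne_zero _ hN.ne'))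
    · have b1 := sum_log_quo hPt hht p q
      have b2 := sum_log_quo hPt0 hht0 p q
      calc ∑ w : InfinitePlace K, (w.mult : ℝ) * |Real.log (w (f x))|
          ≤ ∑ w : InfinitePlace K, ((w.mult : ℝ) * |Real.log (w (quo p q x))| +
              (w.mult : ℝ) * |Real.log (w (quo p q x0))|) := by
            refine Finset.sum_le_sum fun w _ => ?_
            have hw1 : 0 < w (quo p q x) := InfinitePlace.pos_iff.2 (quo_ne hPt p q)
            have hw2 : 0 < w (quo p q x0) := InfinitePlace.pos_iff.2 hq0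
            rw [hf]
            simp only
            rw [map_div₀, Real.log_div hw1.ne' hw2.ne', ← mul_add]
            exact mul_le_mul_of_nonneg_left (abs_sub _ _) (Nat.cast_nonneg _)
        _ ≤ 4 * X + 8 * (n * Real.log 2) := by
            rw [Finset.sum_add_distrib]
            linarith
  have hcard : (F.card : ℝ) = ∑ t ∈ F.image π, ((F.filter fun x => π x = t).card : ℝ) := by
    rw [Finset.card_eq_sum_card_image π F]
    push_cast
    rfl
  rw [hcard]
  calc ∑ t ∈ F.image π, ((F.filter fun x => π x = t).card : ℝ)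
      ≤ ∑ _t ∈ F.image π, Real.exp (n * A2 + ε / 8 * (4 * X + 8 * (n * Real.log 2))) :=
        Finset.sum_le_sum hfib
    _ = ((F.image π).card : ℝ) * Real.exp (n * A2 + ε / 8 * (4 * X + 8 * (n * Real.log 2))) := by
        rw [Finset.sum_const, nsmul_eq_mul]
    _ ≤ Real.exp (n * A1 + c + ε / 2 * (X + n * Real.log 2)) *
          Real.exp (n * A2 + ε / 8 * (4 * X + 8 * (n * Real.log 2))) :=
        mul_le_mul_of_nonneg_right hQ (Real.exp_pos _).le
    _ = _ := by
        rw [← Real.exp_add]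
        congr 1
        ring

/-- **points with small radical**, uniformly in all number fields -/
theorem per_field {ε : ℝ} (hε : 0 < ε) : ∃ A : ℝ, 0 ≤ A ∧
    ∀ (K : Type) [Field K] [NumberField K],
      ∀ (X Y : ℝ) (E : Finset K),
        (∀ x ∈ E, Pt x ∧ ht x ≤ X ∧ ∃ P : Fin 3 → Idl K, IsP ∅ x P ∧
          rl (P 0) + rl (P 1) + rl (P 2) ≤ Y) →
        (E.card : ℝ) ≤ Real.exp (Module.finrank ℚ K * A + 2 / 3 * Y + ε * X) := by
  classical
  obtain ⟨A, hA, hcl⟩ := class_card hε
  refine ⟨A + Real.log 3, by positivity, ?_⟩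
  intro K _ _ X Y E hE
  set n := Module.finrank ℚ K with hn
  have hn1 : (1 : ℝ) ≤ n := by
    exact_mod_cast Module.finrank_pos (R := ℚ) (M := K)
  have hex : ∀ x : K, ∃ P : Fin 3 → Idl K, x ∈ E → IsP ∅ x P ∧
      rl (P 0) + rl (P 1) + rl (P 2) ≤ Y := by
    intro x
    by_cases hx : x ∈ E
    · obtain ⟨_, _, P, hP⟩ := hE x hx
      exact ⟨P, fun _ => hP⟩
    · exact ⟨fun _ => 0, fun h => absurd h hx⟩
  choose P hP using hex
  have hclass : ∀ p q : Fin 3, p ≠ q → ∀ F : Finset K, F ⊆ E →
      (∀ x ∈ F, rl (P x p) + rl (P x q) ≤ 2 / 3 * Y) →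
      (F.card : ℝ) ≤ Real.exp (n * A + 2 / 3 * Y + ε * X) := by
    intro p q hpq F hFE hF
    refine hcl K X (2 / 3 * Y) F P p q hpq fun x hx => ?_
    obtain ⟨hPt, hht, _⟩ := hE x (hFE hx)
    exact ⟨hPt, hht, (hP x (hFE hx)).1, hF x hx⟩
  set F : Fin 3 → Finset K := fun r => E.filter fun x => ∀ l, rl (P x l) ≤ rl (P x r) with hFdef
  have hcov : E ⊆ Finset.univ.biUnion F := by
    intro x hx
    obtain ⟨r, _, hr⟩ := Finset.exists_max_image (Finset.univ : Finset (Fin 3))
      (fun l => rl (P x l)) Finset.univ_nonempty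
    exact Finset.mem_biUnion.2 ⟨r, Finset.mem_univ _,
      Finset.mem_filter.2 ⟨hx, fun l => hr l (Finset.mem_univ _)⟩⟩
  have h0 : (E.card : ℝ) ≤ ∑ r : Fin 3, ((F r).card : ℝ) := by
    have := (Finset.card_le_card hcov).trans Finset.card_biUnion_le
    exact_mod_cast this
  have hb : ∀ r : Fin 3, ((F r).card : ℝ) ≤ Real.exp (n * A + 2 / 3 * Y + ε * X) := by
    intro r
    have hmem : ∀ x ∈ F r, x ∈ E ∧ ∀ l, rl (P x l) ≤ rl (P x r) :=
      fun x hx => Finset.mem_filter.1 hx
    fin_cases r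
    · refine hclass 1 2 (by decide) _ (fun x hx => (hmem x hx).1) fun x hx => ?_
      have a1 := (hmem x hx).2 1
      have a2 := (hmem x hx).2 2
      have a3 := (hP x (hmem x hx).1).2
      simp only [Fin.zero_eta] at a1 a2
      linarith
    · refine hclass 0 2 (by decide) _ (fun x hx => (hmem x hx).1) fun x hx => ?_
      have a1 := (hmem x hx).2 0
      have a2 := (hmem x hx).2 2
      have a3 := (hP x (hmem x hx).1).2
      simp only [Fin.mk_one] at a1 a2
      linarith
    · refine hclass 0 1 (by decide) _ (fun x hx => (hmem x hx).1) fun x hx => ?_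
      have a1 := (hmem x hx).2 0
      have a2 := (hmem x hx).2 1
      have a3 := (hP x (hmem x hx).1).2
      simp only [Fin.reduceFinMk] at a1 a2
      linarith
  refine h0.trans ((Finset.sum_le_sum fun r _ => hb r).trans ?_)
  rw [Finset.sum_const, Finset.card_univ, Fintype.card_fin, nsmul_eq_mul]
  have h3 : ((3 : ℕ) : ℝ) ≤ Real.exp (n * Real.log 3) := by
    have h4 : Real.exp (Real.log 3) = 3 := Real.exp_log (by norm_num)
    have h5 : Real.exp (Real.log 3) ≤ Real.exp (n * Real.log 3) := by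
      apply Real.exp_le_exp.2
      have : 0 ≤ Real.log 3 := Real.log_nonneg (by norm_num)
      nlinarith
    push_cast
    linarith
  calc ((3 : ℕ) : ℝ) * Real.exp (n * A + 2 / 3 * Y + ε * X)
      ≤ Real.exp (n * Real.log 3) * Real.exp (n * A + 2 / 3 * Y + ε * X) :=
        mul_le_mul_of_nonneg_right h3 (Real.exp_pos _).le
    _ = _ := by
        rw [← Real.exp_add]
        congr 1
        ring

end Pool.Agent.Y733.UD
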