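import Mathlib
import Pool.Agent.H16.LA.S8.W669.VA1a
import Pool.Agent.H16.LA.S8.Y733.UD.Fibre

/-!
# Lower bounds for the number of all points
-/

set_option autoImplicit false

namespace Pool.Agent.Y733.UD

open NumberField IsDedekindDomain Finset Pool.Agent.H691R3 Pool.Agent.W223.AK
open Pool.Agent.W222.UABC (cS_empty quo quo_ne fv_quo small_finite)

/-- logarithm of the root discriminant -/
noncomputable def rd (K : Type) [Field K] [NumberField K] : ℝ :=
  Real.log |(NumberField.discr K : ℝ)| / (Module.finrank ℚ K : ℝ)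

section OneField

variable (K : Type) [Field K] [NumberField K]

theorem one_le_disc : (1 : ℝ) ≤ |(NumberField.discr K : ℝ)| := by
  have h0 : NumberField.discr K ≠ 0 := NumberField.discr_ne_zero K
  have : (1 : ℤ) ≤ |NumberField.discr K| := Int.one_le_abs h0
  have h : ((1 : ℤ) : ℝ) ≤ ((|NumberField.discr K| : ℤ) : ℝ) := Int.cast_le.mpr this
  rw [Int.cast_abs] at h
  simpa using h

theorem rd_nonneg : 0 ≤ rd K :=
  div_nonneg (Real.log_nonneg (one_le_disc K)) (Nat.cast_nonneg _)

theorem finrank_one_le : (1 : ℝ) ≤ Module.finrank ℚ K := by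
  exact_mod_cast Module.finrank_pos (R := ℚ) (M := K)

theorem mul_rd : (Module.finrank ℚ K : ℝ) * rd K = Real.log |(NumberField.discr K : ℝ)| := by
  unfold rd
  rw [mul_div_cancel₀]
  have := finrank_one_le K
  linarith

/-- the integers in a box -/
theorem box_card (M : ℝ) : Real.exp (Module.finrank ℚ K * (M - Real.log 2 - rd K / 2)) ≤
    (Set.ncard {a : 𝓞 K | ∀ σ : K →+* ℂ, ‖σ a‖ < Real.exp M} : ℝ) := by
  have h := Pool.Agent.W669.VA1a.taskA1a K (Real.exp M) (Real.exp_pos _)
  set n := Module.finrank ℚ K with hn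
  have h1 : Real.sqrt |(NumberField.discr K : ℝ)| = Real.exp (n * (rd K / 2)) := by
    have h2 : (n : ℝ) * (rd K / 2) = Real.log |(NumberField.discr K : ℝ)| / 2 := by
      rw [← mul_rd K]
      ring
    rw [h2, Real.exp_half, Real.exp_log (by linarith [one_le_disc K])]
  have h3 : (2 : ℝ) ^ n = Real.exp (n * Real.log 2) := by
    rw [Real.exp_nat_mul, Real.exp_log (by norm_num)]
  rw [h1, h3, ← Real.exp_nat_mul, ← Real.exp_add] at h
  have e : (n : ℝ) * (M - Real.log 2 - rd K / 2) = n * M - (n * Real.log 2 + n * (rd K / 2)) := by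
    ring
  rw [e, Real.exp_sub, div_le_iff₀ (Real.exp_pos _)]
  rw [mul_comm (Real.exp _)] at h
  exact h

variable {K}

theorem fv_int_le (v : Pr K) (a : 𝓞 K) : fv v (a : K) ≤ 1 := by
  have h2 : fv v (a : K) = _ := FinitePlace.norm_embedding' (v := v) (x := (a : K))
  rw [h2]
  have h3 := v.valuation_le_one (K := K) a
  have := (WithZeroMulInt.toNNReal_le_one_iff (HeightOneSpectrum.one_lt_absNorm_nnreal v)).2 h3
  exact_mod_cast this

/-- the nonzero integers in a box, as elements of the field -/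
theorem exists_box (M : ℝ) : ∃ S : Finset K, (∀ b ∈ S, b ≠ 0 ∧ (∃ a : 𝓞 K, (a : K) = b) ∧
      ∀ w : InfinitePlace K, w b < Real.exp M) ∧
    Real.exp (Module.finrank ℚ K * (M - Real.log 2 - rd K / 2)) - 1 ≤ S.card := by
  classical
  set S0 : Finset (𝓞 K) := (small_finite (K := K) (Real.exp M)).toFinset with hS0
  have hmem : ∀ a : 𝓞 K, a ∈ S0 ↔ ∀ σ : K →+* ℂ, ‖σ a‖ < Real.exp M := by
    intro a
    rw [hS0, Set.Finite.mem_toFinset]
    rfl
  refine ⟨(S0.erase 0).image (fun a : 𝓞 K => (a : K)), ?_, ?_⟩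
  · intro b hb
    obtain ⟨a, ha, rfl⟩ := Finset.mem_image.1 hb
    rw [Finset.mem_erase] at ha
    refine ⟨?_, ⟨a, rfl⟩, fun w => ?_⟩
    · simpa using ha.1
    · have := (hmem a).1 ha.2 w.embedding
      rwa [InfinitePlace.norm_embedding_eq] at this
  · rw [Finset.card_image_of_injective _ RingOfIntegers.coe_injective]
    have h1 := Finset.pred_card_le_card_erase (s := S0) (a := 0)
    have h2 := box_card K M
    have h3 : (Set.ncard {a : 𝓞 K | ∀ σ : K →+* ℂ, ‖σ a‖ < Real.exp M} : ℝ) = S0.card := by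
      rw [hS0, Set.ncard_eq_toFinset_card _ (small_finite (K := K) (Real.exp M))]
    rw [h3] at h2
    have h4 : (S0.card : ℝ) ≤ ((S0.erase 0).card : ℝ) + 1 := by
      exact_mod_cast (by omega : S0.card ≤ (S0.erase 0).card + 1)
    linarith

end OneField

/-- upper bound for the number of all points -/
theorem all_card {ε : ℝ} (hε : 0 < ε) : ∃ A : ℝ, 0 ≤ A ∧
    ∀ (K : Type) [Field K] [NumberField K], ∀ (X : ℝ) (E : Finset K),
      (∀ x ∈ E, Pt x ∧ ht x ≤ X) →
        (E.card : ℝ) ≤ Real.exp (Module.finrank ℚ K * A + (2 + ε) * X) := by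
  obtain ⟨A, hA, h⟩ := per_field hε
  refine ⟨A + 2 * Real.log 2, by positivity, ?_⟩
  intro K _ _ X E hE
  refine (h K X (3 * (X + Module.finrank ℚ K * Real.log 2)) E ?_).trans (le_of_eq ?_)
  · intro x hx
    obtain ⟨hPt, hht⟩ := hE x hx
    obtain ⟨P, hP⟩ := exists_isP ∅ hPt
    refine ⟨hPt, hht, P, hP, ?_⟩
    have h1 : ∀ l, rl (P l) ≤ X + Module.finrank ℚ K * Real.log 2 := by
      intro l
      have h2 := len_le hPt hP l
      rw [cS_empty] at h2
      linarith [rl_le_len (P l)]
    linarith [h1 0, h1 1, h1 2]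
  · congr 1
    ring

/-- **lower bound for the number of all points** -/
theorem low_count {ε : ℝ} (hε : 0 < ε) (hε1 : ε ≤ 1) : ∃ A : ℝ, 0 ≤ A ∧
    ∀ (K : Type) [Field K] [NumberField K], ∀ M : ℝ, Real.log 8 + rd K / 2 ≤ M →
      ∃ E : Finset K, (∀ t ∈ E, Pt t ∧ ht t ≤ Module.finrank ℚ K * M) ∧
        Real.exp (Module.finrank ℚ K * ((2 - 4 * ε) * M - (2 + ε) * rd K - A)) ≤ E.card := by
  classical
  obtain ⟨A1, hA1, hall⟩ := all_card hε
  obtain ⟨A2, hA2, hfc⟩ := fibre_card hε
  set A3 : ℝ := A1 + A2 + 2 + ε + Real.log (1 + 1 / ε) + Real.log 8 + 2 * Real.log 2 with hA3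
  have hl2 : 0 ≤ Real.log 2 := Real.log_nonneg (by norm_num)
  have hl8 : 0 ≤ Real.log 8 := Real.log_nonneg (by norm_num)
  have hle : 0 ≤ Real.log (1 + 1 / ε) := Real.log_nonneg (by
    have : 0 ≤ 1 / ε := by positivity
    linarith)
  have hA30 : 0 ≤ A3 := by positivity
  refine ⟨Real.log 8 + 2 * Real.log 2 + A2 + 2 * A3, by positivity, ?_⟩
  intro K _ _ M hM
  set n := Module.finrank ℚ K with hn
  have hn1 : (1 : ℝ) ≤ n := finrank_one_le K
  have hn0 : (0 : ℝ) < n := by linarith
  have hrd := rd_nonneg K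
  have hM0 : 0 ≤ M := by linarith
  obtain ⟨S, hS, hScard⟩ := exists_box (K := K) M
  set m : ℝ := Real.exp (n * (M - Real.log 2 - rd K / 2)) with hm
  have hm4 : 4 ≤ m := by
    have h1 : Real.log 4 ≤ n * (M - Real.log 2 - rd K / 2) := by
      have h2 : Real.log 4 ≤ M - Real.log 2 - rd K / 2 := by
        have h3 : Real.log 8 = Real.log 4 + Real.log 2 := by
          rw [← Real.log_mul (by norm_num) (by norm_num)]
          norm_num
        linarith
      have h4 : 0 ≤ Real.log 4 := Real.log_nonneg (by norm_num)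
      nlinarith
    calc (4 : ℝ) = Real.exp (Real.log 4) := (Real.exp_log (by norm_num)).symm
      _ ≤ m := Real.exp_le_exp.2 h1
  -- the pairs
  set Q : Finset (K × K) := (S ×ˢ S).filter (fun p => p.1 + p.2 ≠ 0) with hQ
  have hQcard : m ^ 2 / 4 ≤ (Q.card : ℝ) := by
    have h1 : ((S ×ˢ S).filter (fun p : K × K => ¬ (p.1 + p.2 ≠ 0))).card ≤ S.card := by
      refine Finset.card_le_card_of_injOn Prod.fst ?_ ?_
      · intro p hp
        exact (Finset.mem_product.1 (Finset.mem_filter.1 (Finset.mem_coe.1 hp)).1).1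
      · intro p hp q hq hpq
        have h2 := (Finset.mem_filter.1 (Finset.mem_coe.1 hp)).2
        have h3 := (Finset.mem_filter.1 (Finset.mem_coe.1 hq)).2
        simp only [ne_eq, not_not] at h2 h3
        refine Prod.ext hpq ?_
        rw [hpq] at h2
        exact add_left_cancel (h2.trans h3.symm)
    have h2 := Finset.card_filter_add_card_filter_not (s := S ×ˢ S)
      (fun p : K × K => p.1 + p.2 ≠ 0)
    rw [Finset.card_product] at h2
    have h3 : (S.card : ℝ) * S.card ≤ Q.card + S.card := by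
      have : S.card * S.card ≤ Q.card + S.card := by
        rw [hQ]
        omega
      exact_mod_cast this
    have h4 : m - 1 ≤ (S.card : ℝ) := hScard
    nlinarith
  have hSK : ∀ b ∈ S, b ≠ 0 ∧ (∀ v : Pr K, fv v b ≤ 1) ∧
      ∀ w : InfinitePlace K, Real.log (w b) ≤ M := by
    intro b hb
    obtain ⟨h1, ⟨a, rfl⟩, h3⟩ := hS b hb
    refine ⟨h1, fun v => fv_int_le v a, fun w => ?_⟩
    have hw : 0 < w (a : K) := InfinitePlace.pos_iff.2 h1
    rw [Real.log_le_iff_le_exp hw]
    exact (h3 w).le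
  set π : K × K → K := fun p => p.1 / p.2 with hπ
  have hQm : ∀ p ∈ Q, p.1 ∈ S ∧ p.2 ∈ S ∧ p.1 + p.2 ≠ 0 := by
    intro p hp
    obtain ⟨h1, h2⟩ := Finset.mem_filter.1 hp
    exact ⟨(Finset.mem_product.1 h1).1, (Finset.mem_product.1 h1).2, h2⟩
  have hPt : ∀ p ∈ Q, Pt (π p) ∧ ht (π p) ≤ n * M := by
    intro p hp
    obtain ⟨h1, h2, h3⟩ := hQm p hp
    obtain ⟨a0, a1, a2⟩ := hSK _ h1
    obtain ⟨b0, b1, b2⟩ := hSK _ h2
    have hmul : π p * p.2 = p.1 := div_mul_cancel₀ _ b0
    refine ⟨⟨div_ne_zero a0 b0, ?_⟩, ?_⟩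
    · have e : π p + 1 = (p.1 + p.2) / p.2 := by
        rw [hπ]
        field_simp
      rw [e]
      exact div_ne_zero h3 b0
    · obtain ⟨P, _, hP⟩ := exists_ideal (t := π p) (b := p.2) (div_ne_zero a0 b0) b0 b1
        (by rw [hmul]; exact a1)
      have h4 := len_nonneg P
      have h5 : ∑ w : InfinitePlace K, (w.mult : ℝ) *
          (Real.log (w p.2) + Real.log (max (w (π p)) 1)) ≤
          ∑ w : InfinitePlace K, (w.mult : ℝ) * M := by
        refine Finset.sum_le_sum fun w _ => mul_le_mul_of_nonneg_left ?_ (Nat.cast_nonneg _)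
        have hw2 : 0 < w p.2 := InfinitePlace.pos_iff.2 b0
        have hwt : 0 < w (π p) := InfinitePlace.pos_iff.2 (div_ne_zero a0 b0)
        rcases max_choice (w (π p)) 1 with h | h
        · rw [h, ← Real.log_mul hw2.ne' hwt.ne', ← map_mul, mul_comm, hmul]
          exact a2 w
        · rw [h, Real.log_one, add_zero]
          exact b2 w
      rw [← Finset.sum_mul] at h5
      have hmult : ∑ w : InfinitePlace K, (w.mult : ℝ) = n := by
        have := InfinitePlace.sum_mult_eq (K := K)
        exact_mod_cast this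
      rw [hmult] at h5
      linarith
  -- the fibres
  have hfib : ∀ t : K, ((Q.filter fun p => π p = t).card : ℝ) ≤
      Real.exp (n * A2 + (1 + ε) * (n * M - ht t)) := by
    intro t
    set G := Q.filter fun p => π p = t with hG
    rcases G.eq_empty_or_nonempty with hGe | ⟨p0, hp0⟩
    · rw [hGe, Finset.card_empty, Nat.cast_zero]
      positivity
    have hGm : ∀ p ∈ G, p ∈ Q ∧ π p = t := fun p hp => Finset.mem_filter.1 hp
    have ht0 : t ≠ 0 := by
      obtain ⟨h1, h2⟩ := hGm p0 hp0
      rw [← h2]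
      exact (hPt p0 h1).1.1
    have hmul : ∀ p ∈ G, t * p.2 = p.1 := by
      intro p hp
      obtain ⟨h1, h2⟩ := hGm p hp
      rw [← h2]
      exact div_mul_cancel₀ _ (hSK _ (hQm p h1).2.1).1
    have hinj : Set.InjOn Prod.snd (G : Set (K × K)) := by
      intro p hp q hq hpq
      have h1 := hmul p (Finset.mem_coe.1 hp)
      have h2 := hmul q (Finset.mem_coe.1 hq)
      refine Prod.ext ?_ hpq
      rw [← h1, ← h2, hpq]
    rw [← Finset.card_image_of_injOn hinj]
    refine hfc K t M _ ht0 ?_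
    intro b hb
    obtain ⟨p, hp, rfl⟩ := Finset.mem_image.1 hb
    obtain ⟨h1, h2, _⟩ := hQm p (hGm p hp).1
    obtain ⟨a0, a1, a2⟩ := hSK _ h1
    obtain ⟨b0, b1, b2⟩ := hSK _ h2
    rw [hmul p hp]
    exact ⟨b0, b1, a1, fun w => ⟨b2 w, a2 w⟩⟩
  -- the pairs with a quotient of small height
  set lam : ℝ := A3 + 2 * ε * M + rd K with hlam
  have hlam0 : 0 ≤ lam := by positivity
  set Qs := Q.filter fun p => ht (π p) ≤ n * (M - lam) with hQs
  set Ql := Q.filter fun p => ¬ (ht (π p) ≤ n * (M - lam)) with hQl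
  have hsplit : (Q.card : ℝ) = Qs.card + Ql.card := by
    have := Finset.card_filter_add_card_filter_not (s := Q)
      (fun p : K × K => ht (π p) ≤ n * (M - lam))
    rw [← this]
    push_cast
    rfl
  set jj : K × K → ℕ := fun p => ⌊ht (π p) / n⌋₊ with hjj
  have hjj1 : ∀ p, (n : ℝ) * jj p ≤ ht (π p) ∧ ht (π p) ≤ n * (jj p + 1) := by
    intro p
    have h1 : 0 ≤ ht (π p) / n := div_nonneg (ht_nonneg _) hn0.le
    have h2 := Nat.floor_le h1
    have h3 := (Nat.lt_floor_add_one (ht (π p) / n)).le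
    rw [le_div_iff₀ hn0] at h2
    rw [div_le_iff₀ hn0] at h3
    constructor
    · rw [mul_comm]; exact h2
    · rw [mul_comm]; exact h3
  have hQscard : (Qs.card : ℝ) ≤ m ^ 2 / 8 := by
    have h1 : Qs ⊆ (Finset.range (⌊M⌋₊ + 1)).biUnion fun j => Qs.filter fun p => jj p = j := by
      intro p hp
      have h2 := (Finset.mem_filter.1 hp).2
      refine Finset.mem_biUnion.2 ⟨jj p, ?_, Finset.mem_filter.2 ⟨hp, rfl⟩⟩
      rw [Finset.mem_range, Nat.lt_succ_iff]
      apply Nat.floor_le_floor
      rw [div_le_iff₀ hn0]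
      nlinarith
    have h2 : (Qs.card : ℝ) ≤ ∑ j ∈ Finset.range (⌊M⌋₊ + 1),
        ((Qs.filter fun p => jj p = j).card : ℝ) := by
      have := (Finset.card_le_card h1).trans Finset.card_biUnion_le
      exact_mod_cast this
    have h3 : ∀ j ∈ Finset.range (⌊M⌋₊ + 1), ((Qs.filter fun p => jj p = j).card : ℝ) ≤
        Real.exp (n * (A1 + A2 + 2 + ε + (2 + ε) * M - lam)) := by
      intro j _
      set G := Qs.filter fun p => jj p = j with hG
      rcases G.eq_empty_or_nonempty with hGe | ⟨p0, hp0⟩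
      · rw [hGe, Finset.card_empty, Nat.cast_zero]
        positivity
      have hGm : ∀ p ∈ G, p ∈ Q ∧ ht (π p) ≤ n * (M - lam) ∧ jj p = j := by
        intro p hp
        obtain ⟨g1, g2⟩ := Finset.mem_filter.1 hp
        obtain ⟨g3, g4⟩ := Finset.mem_filter.1 g1
        exact ⟨g3, g4, g2⟩
      have hjM : (j : ℝ) ≤ M - lam := by
        obtain ⟨g1, g2, g3⟩ := hGm p0 hp0
        have g4 := (hjj1 p0).1
        rw [g3] at g4
        have g5 := g4.trans g2
        exact le_of_mul_le_mul_left g5 hn0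
      have him : ((G.image π).card : ℝ) ≤ Real.exp (n * A1 + (2 + ε) * (n * (j + 1))) := by
        refine hall K (n * (j + 1)) _ ?_
        intro t ht'
        obtain ⟨p, hp, rfl⟩ := Finset.mem_image.1 ht'
        obtain ⟨g1, g2, g3⟩ := hGm p hp
        refine ⟨(hPt p g1).1, ?_⟩
        have g4 := (hjj1 p).2
        rw [g3] at g4
        exact g4
      have hf : ∀ t ∈ G.image π, ((G.filter fun p => π p = t).card : ℝ) ≤
          Real.exp (n * A2 + (1 + ε) * (n * M - n * j)) := by
        intro t ht'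
        obtain ⟨p, hp, rfl⟩ := Finset.mem_image.1 ht'
        obtain ⟨g1, g2, g3⟩ := hGm p hp
        have g4 := (hjj1 p).1
        rw [g3] at g4
        have g5 : (G.filter fun q => π q = π p) ⊆ Q.filter fun q => π q = π p := by
          intro q hq
          obtain ⟨k1, k2⟩ := Finset.mem_filter.1 hq
          exact Finset.mem_filter.2 ⟨(hGm q k1).1, k2⟩
        have g6 : ((G.filter fun q => π q = π p).card : ℝ) ≤
            ((Q.filter fun q => π q = π p).card : ℝ) := by
          exact_mod_cast Finset.card_le_card g5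
        refine g6.trans ((hfib (π p)).trans (Real.exp_le_exp.2 ?_))
        have : (1 + ε) * (n * M - ht (π p)) ≤ (1 + ε) * (n * M - n * j) :=
          mul_le_mul_of_nonneg_left (by linarith) (by linarith)
        linarith
      have hcard : (G.card : ℝ) = ∑ t ∈ G.image π, ((G.filter fun p => π p = t).card : ℝ) := by
        rw [Finset.card_eq_sum_card_image π G]
        push_cast
        rfl
      rw [hcard]
      calc ∑ t ∈ G.image π, ((G.filter fun p => π p = t).card : ℝ)
          ≤ ∑ _t ∈ G.image π, Real.exp (n * A2 + (1 + ε) * (n * M - n * j)) :=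
            Finset.sum_le_sum hf
        _ = ((G.image π).card : ℝ) * Real.exp (n * A2 + (1 + ε) * (n * M - n * j)) := by
            rw [Finset.sum_const, nsmul_eq_mul]
        _ ≤ Real.exp (n * A1 + (2 + ε) * (n * (j + 1))) *
              Real.exp (n * A2 + (1 + ε) * (n * M - n * j)) :=
            mul_le_mul_of_nonneg_right him (Real.exp_pos _).le
        _ = Real.exp (n * (A1 + A2 + 2 + ε + (1 + ε) * M + j)) := by
            rw [← Real.exp_add]
            congr 1
            ring
        _ ≤ _ := by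
            apply Real.exp_le_exp.2
            apply mul_le_mul_of_nonneg_left _ hn0.le
            linarith
    have h4 : ((⌊M⌋₊ + 1 : ℕ) : ℝ) ≤ Real.exp (n * (ε * M + Real.log (1 + 1 / ε))) := by
      have g1 : ((⌊M⌋₊ + 1 : ℕ) : ℝ) ≤ M + 1 := by
        push_cast
        linarith [Nat.floor_le hM0]
      have g2 : M + 1 ≤ Real.exp (ε * M + Real.log (1 + 1 / ε)) := by
        rw [Real.exp_add, Real.exp_log (by positivity)]
        have g3 := Real.add_one_le_exp (ε * M)
        have g4 : M + 1 ≤ (ε * M + 1) * (1 + 1 / ε) := by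
          have : (ε * M + 1) * (1 + 1 / ε) = ε * M + M + 1 + 1 / ε := by
            field_simp
            ring
          rw [this]
          have : 0 ≤ 1 / ε := by positivity
          have : 0 ≤ ε * M := by positivity
          linarith
        exact g4.trans (mul_le_mul_of_nonneg_right g3 (by positivity))
      refine g1.trans (g2.trans (Real.exp_le_exp.2 ?_))
      have : 0 ≤ ε * M + Real.log (1 + 1 / ε) := by positivity
      nlinarith
    have h5 : (1 : ℝ) / 8 = Real.exp (-Real.log 8) := by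
      rw [Real.exp_neg, Real.exp_log (by norm_num)]
      norm_num
    calc (Qs.card : ℝ) ≤ ∑ j ∈ Finset.range (⌊M⌋₊ + 1),
          ((Qs.filter fun p => jj p = j).card : ℝ) := h2
      _ ≤ ∑ _j ∈ Finset.range (⌊M⌋₊ + 1),
          Real.exp (n * (A1 + A2 + 2 + ε + (2 + ε) * M - lam)) := Finset.sum_le_sum h3
      _ = ((⌊M⌋₊ + 1 : ℕ) : ℝ) * Real.exp (n * (A1 + A2 + 2 + ε + (2 + ε) * M - lam)) := by
          rw [Finset.sum_const, Finset.card_range, nsmul_eq_mul]
      _ ≤ Real.exp (n * (ε * M + Real.log (1 + 1 / ε))) *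
            Real.exp (n * (A1 + A2 + 2 + ε + (2 + ε) * M - lam)) :=
          mul_le_mul_of_nonneg_right h4 (Real.exp_pos _).le
      _ = Real.exp (2 * (n * (M - Real.log 2 - rd K / 2)) + n * -Real.log 8) := by
          rw [← Real.exp_add, hlam, hA3]
          congr 1
          ring
      _ ≤ Real.exp (2 * (n * (M - Real.log 2 - rd K / 2)) + -Real.log 8) := by
          apply Real.exp_le_exp.2
          nlinarith
      _ = m ^ 2 / 8 := by
          rw [Real.exp_add, ← h5, hm, ← Real.exp_nat_mul]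
          push_cast
          ring
  have hQlcard : m ^ 2 / 8 ≤ (Ql.card : ℝ) := by linarith
  -- the quotients of large height
  refine ⟨Ql.image π, ?_, ?_⟩
  · intro t ht'
    obtain ⟨p, hp, rfl⟩ := Finset.mem_image.1 ht'
    exact hPt p (Finset.mem_filter.1 hp).1
  · have hf : ∀ t ∈ Ql.image π, ((Ql.filter fun p => π p = t).card : ℝ) ≤
        Real.exp (n * A2 + (1 + ε) * (n * lam)) := by
      intro t ht'
      obtain ⟨p, hp, rfl⟩ := Finset.mem_image.1 ht'
      obtain ⟨g1, g2⟩ := Finset.mem_filter.1 hp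
      push Not at g2
      have g5 : (Ql.filter fun q => π q = π p) ⊆ Q.filter fun q => π q = π p := by
        intro q hq
        obtain ⟨k1, k2⟩ := Finset.mem_filter.1 hq
        exact Finset.mem_filter.2 ⟨(Finset.mem_filter.1 k1).1, k2⟩
      have g6 : ((Ql.filter fun q => π q = π p).card : ℝ) ≤
          ((Q.filter fun q => π q = π p).card : ℝ) := by
        exact_mod_cast Finset.card_le_card g5
      refine g6.trans ((hfib (π p)).trans (Real.exp_le_exp.2 ?_))
      have : (1 + ε) * (n * M - ht (π p)) ≤ (1 + ε) * (n * lam) :=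
        mul_le_mul_of_nonneg_left (by linarith) (by linarith)
      linarith
    have hcard : (Ql.card : ℝ) = ∑ t ∈ Ql.image π, ((Ql.filter fun p => π p = t).card : ℝ) := by
      rw [Finset.card_eq_sum_card_image π Ql]
      push_cast
      rfl
    have h1 : (Ql.card : ℝ) ≤ ((Ql.image π).card : ℝ) * Real.exp (n * A2 + (1 + ε) * (n * lam)) := by
      rw [hcard]
      refine (Finset.sum_le_sum hf).trans (le_of_eq ?_)
      rw [Finset.sum_const, nsmul_eq_mul]
    have h2 : m ^ 2 / 8 ≤ ((Ql.image π).card : ℝ) * Real.exp (n * A2 + (1 + ε) * (n * lam)) :=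
      hQlcard.trans h1
    have h5 : (1 : ℝ) / 8 = Real.exp (-Real.log 8) := by
      rw [Real.exp_neg, Real.exp_log (by norm_num)]
      norm_num
    have h6 : m ^ 2 / 8 = Real.exp (2 * (n * (M - Real.log 2 - rd K / 2)) + -Real.log 8) := by
      rw [Real.exp_add, ← h5, hm, ← Real.exp_nat_mul]
      push_cast
      ring
    rw [h6, ← div_le_iff₀ (Real.exp_pos _), ← Real.exp_sub] at h2
    refine le_trans (Real.exp_le_exp.2 ?_) h2
    have h7 : Real.log 8 ≤ n * Real.log 8 := by nlinarith
    have h8 : (1 + ε) * (n * lam) ≤ n * ((2 * A3 + 4 * ε * M + (1 + ε) * rd K)) := by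
      have g1 : (1 + ε) * (n * lam) = n * ((1 + ε) * lam) := by ring
      rw [g1]
      apply mul_le_mul_of_nonneg_left _ hn0.le
      rw [hlam]
      have g2 : (1 + ε) * A3 ≤ 2 * A3 := mul_le_mul_of_nonneg_right (by linarith) hA30
      have g3 : (1 + ε) * (2 * ε * M) ≤ 2 * (2 * ε * M) :=
        mul_le_mul_of_nonneg_right (by linarith) (by positivity)
      nlinarith
    have h9 : n * ((2 - 4 * ε) * M - (2 + ε) * rd K -
        (Real.log 8 + 2 * Real.log 2 + A2 + 2 * A3)) =
        2 * (n * (M - Real.log 2 - rd K / 2)) + -(n * Real.log 8) -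
          (n * A2 + n * ((2 * A3 + 4 * ε * M + (1 + ε) * rd K))) := by ring
    rw [h9]
    linarith

end Pool.Agent.Y733.UD
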